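import Mathlib

namespace Pool.Agent.MP_e4b752_al

open Finset

variable {n : ℕ}

/-- size of the kernel class over `c` -/
def fib (a : Fin n → Fin n) (c : Fin n) : ℕ := (univ.filter (fun j => a j = c)).card

/-- position of `i` inside its kernel class -/
def idx (a : Fin n → Fin n) (i : Fin n) : ℕ :=
  (univ.filter (fun j => j < i ∧ a j = a i)).card

lemma idx_lt (a : Fin n → Fin n) (i : Fin n) : idx a i < fib a (a i) := by
  unfold idx fib
  apply card_lt_card
  refine ⟨fun j hj => ?_, fun h => ?_⟩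
  · simp only [mem_filter, mem_univ, true_and] at hj ⊢
    exact hj.2
  · have : i ∈ univ.filter (fun j => a j = a i) := by simp
    have := h this
    simp at this

lemma idx_lt_idx (a : Fin n → Fin n) {i i' : Fin n} (h : a i = a i') (hlt : i < i') :
    idx a i < idx a i' := by
  unfold idx
  apply card_lt_card
  refine ⟨fun j hj => ?_, fun hh => ?_⟩
  · simp only [mem_filter, mem_univ, true_and] at hj ⊢
    exact ⟨hj.1.trans hlt, hj.2.trans h⟩
  · have : i ∈ univ.filter (fun j => j < i' ∧ a j = a i') := by simp [hlt, h]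
    have := hh this
    simp at this

lemma idx_inj (a : Fin n → Fin n) {i i' : Fin n} (h : a i = a i') (h2 : idx a i = idx a i') :
    i = i' := by
  rcases lt_trichotomy i i' with hlt | heq | hlt
  · exact absurd h2 (idx_lt_idx a h hlt).ne
  · exact heq
  · exact absurd h2.symm (idx_lt_idx a h.symm hlt).ne

/-- the set of rows -/
def rows (a : Fin n → Fin n) (L : ℕ) : Finset (Fin n × ℕ) :=
  (univ.image a).biUnion (fun c => (range (fib a c / L + 1)).image (fun q => (c, q)))

lemma card_rows (a : Fin n → Fin n) (L : ℕ) :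
    L * (rows a L).card ≤ n + L * (univ.image a).card := by
  have h1 : (rows a L).card ≤ ∑ c ∈ univ.image a, (fib a c / L + 1) := by
    refine card_biUnion_le.trans (sum_le_sum fun c _ => ?_)
    exact card_image_le.trans (by simp)
  have h2 : ∑ c ∈ univ.image a, fib a c = n := by
    have := card_eq_sum_card_image a (univ : Finset (Fin n))
    simp only [card_univ, Fintype.card_fin] at this
    exact this.symm
  calc L * (rows a L).card ≤ L * ∑ c ∈ univ.image a, (fib a c / L + 1) :=
        Nat.mul_le_mul_left _ h1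
    _ = ∑ c ∈ univ.image a, (L * (fib a c / L) + L) := by
        rw [mul_sum]; exact sum_congr rfl fun c _ => by ring
    _ ≤ ∑ c ∈ univ.image a, (fib a c + L) :=
        sum_le_sum fun c _ => Nat.add_le_add_right (Nat.mul_div_le _ _) _
    _ = n + L * (univ.image a).card := by
        rw [sum_add_distrib, h2, sum_const, smul_eq_mul, mul_comm]

def row (a : Fin n → Fin n) (L : ℕ) (i : Fin n) : rows a L :=
  ⟨(a i, idx a i / L), by
    simp only [rows, mem_biUnion, mem_image, mem_univ, true_and, mem_range]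
    exact ⟨a i, ⟨i, rfl⟩, idx a i / L,
      Nat.lt_succ_of_le (Nat.div_le_div_right (idx_lt a i).le), rfl⟩⟩

def col (a : Fin n → Fin n) (L : ℕ) (hL : 0 < L) (i : Fin n) : (univ.image a) × Fin L :=
  (⟨a i, by simp⟩, ⟨idx a i % L, Nat.mod_lt _ hL⟩)

lemma row_col_inj (a : Fin n → Fin n) (L : ℕ) (hL : 0 < L) {i i' : Fin n}
    (h1 : row a L i = row a L i') (h2 : col a L hL i = col a L hL i') : i = i' := by
  simp only [row, Subtype.mk.injEq, Prod.mk.injEq] at h1
  simp only [col, Prod.mk.injEq, Subtype.mk.injEq, Fin.mk.injEq] at h2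
  refine idx_inj a h1.1 ?_
  rw [← Nat.div_add_mod (idx a i) L, ← Nat.div_add_mod (idx a i') L, h1.2, h2.2]

/-- the points of the small representation -/
abbrev Pts (a : Fin n → Fin n) (L s : ℕ) : Type :=
  rows a L ⊕ (Fin s → (univ.image a) × Fin L) ⊕ Fin n ⊕ Fin (n / s + 1)

def coord (hn : 0 < n) (s : ℕ) (j : Fin (n / s + 1)) (t : Fin s) : Fin n :=
  ⟨(s * j + t) % n, Nat.mod_lt _ hn⟩

def act (a : Fin n → Fin n) (L s : ℕ) (hL : 0 < L) (hn : 0 < n) (x : Fin n → Fin n) :
    Pts a L s → Pts a L s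
  | .inl p => .inl (row a L (x p.1.1))
  | .inr (.inl u) => .inr (.inl fun t => col a L hL (x (u t).1.1))
  | .inr (.inr (.inl i)) => .inl (row a L (x i))
  | .inr (.inr (.inr j)) => .inr (.inl fun t => col a L hL (x (coord hn s j t)))

lemma act_comp (a : Fin n → Fin n) (L s : ℕ) (hL : 0 < L) (hn : 0 < n) (x y : Fin n → Fin n) :
    act a L s hL hn (x ∘ a ∘ y) = act a L s hL hn x ∘ act a L s hL hn y := by
  funext p
  rcases p with p | u | i | j <;> rfl

lemma act_inj (a : Fin n → Fin n) (L s : ℕ) (hL : 0 < L) (hs : 0 < s) (hn : 0 < n) :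
    Function.Injective (act a L s hL hn) := by
  intro x y h
  funext i
  apply row_col_inj a L hL
  · have := congrFun h (.inr (.inr (.inl i)))
    simpa [act] using this
  · have hj : i.1 / s < n / s + 1 := Nat.lt_succ_of_le (Nat.div_le_div_right i.2.le)
    have := congrFun h (.inr (.inr (.inr ⟨i.1 / s, hj⟩)))
    simp only [act, Sum.inr.injEq, Sum.inl.injEq] at this
    have := congrFun this ⟨i.1 % s, Nat.mod_lt _ hs⟩
    have hc : coord hn s ⟨i.1 / s, hj⟩ ⟨i.1 % s, Nat.mod_lt _ hs⟩ = i := by
      apply Fin.ext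
      simp only [coord]
      rw [Nat.div_add_mod, Nat.mod_eq_of_lt i.2]
    rwa [hc] at this

lemma card_Pts (a : Fin n → Fin n) (L s : ℕ) :
    Fintype.card (Pts a L s) =
      (rows a L).card + ((univ.image a).card * L) ^ s + n + (n / s + 1) := by
  simp only [Pts, Fintype.card_sum, Fintype.card_coe, Fintype.card_fun, Fintype.card_prod,
    Fintype.card_fin]
  ring

theorem exists_embedding (a : Fin n → Fin n) (L s : ℕ) (hL : 0 < L) (hs : 0 < s) (hn : 0 < n) :
    ∃ f : (Fin n → Fin n) → (Fin (Fintype.card (Pts a L s)) → Fin (Fintype.card (Pts a L s))),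
      Function.Injective f ∧ ∀ x y, f (x ∘ a ∘ y) = f x ∘ f y := by
  let e := Fintype.equivFin (Pts a L s)
  refine ⟨fun x => e ∘ act a L s hL hn x ∘ e.symm, fun x y h => ?_, fun x y => ?_⟩
  · apply act_inj a L s hL hs hn
    funext p
    have := congrFun h (e p)
    simpa using this
  · funext p
    simp [act_comp]

lemma card_range (a : Fin n → Fin n) : Nat.card (Set.range a) = (univ.image a).card := by
  rw [Nat.card_eq_fintype_card, ← Set.toFinset_card, Set.toFinset_range]

lemma exists_rank (r : ℕ) (hr : 1 ≤ r) (hn : r ≤ n) :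
    ∃ a : Fin n → Fin n, Nat.card (Set.range a) = r := by
  let a : Fin n → Fin n := fun i => ⟨i.1 % r, (Nat.mod_lt _ hr).trans_le hn⟩
  refine ⟨a, ?_⟩
  have : Set.range a = Set.range (Fin.castLE hn) := by
    ext c
    simp only [Set.mem_range]
    constructor
    · rintro ⟨i, rfl⟩
      exact ⟨⟨i.1 % r, Nat.mod_lt _ hr⟩, rfl⟩
    · rintro ⟨i, rfl⟩
      exact ⟨Fin.castLE hn i, Fin.ext (by simp [a, Nat.mod_eq_of_lt i.2])⟩
  rw [this, Nat.card_range_of_injective (Fin.castLE_injective hn)]
  simp

theorem main (r : ℕ) (hr : 2 ≤ r) (ε : ℝ) (hε : 0 < ε) :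
    ∃ N : ℕ, ∀ n : ℕ, N ≤ n →
      (∃ a : Fin n → Fin n, Nat.card (Set.range a) = r) ∧
      ∀ a : Fin n → Fin n, Nat.card (Set.range a) = r →
        ∃ m : ℕ, 1 ≤ m ∧ m < 2 * n - r ∧ (m : ℝ) ≤ (1 + ε) * n ∧
          ∃ f : (Fin n → Fin n) → (Fin m → Fin m),
            Function.Injective f ∧ ∀ x y, f (x ∘ a ∘ y) = f x ∘ f y := by
  obtain ⟨L0, hL0⟩ := exists_nat_ge (3 / ε)
  set L := L0 + 4 with hLdef
  have hL : 0 < L := by omega
  set C := r + (r * L) ^ L + 1 with hC
  refine ⟨L * (C + r + 1), fun n hn => ⟨?_, fun a ha => ?_⟩⟩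
  · apply exists_rank r (by omega)
    calc r ≤ 1 * (C + r + 1) := by omega
      _ ≤ L * (C + r + 1) := Nat.mul_le_mul_right _ hL
      _ ≤ n := hn
  · have hn0 : 0 < n := lt_of_lt_of_le (Nat.mul_pos hL (by omega)) hn
    rw [card_range] at ha
    have hcard := card_Pts a L L
    have hrows := card_rows a L
    rw [ha] at hcard hrows
    set m := Fintype.card (Pts a L L) with hm
    have hdiv : L * (n / L) ≤ n := Nat.mul_div_le _ _
    have key : L * m ≤ L * n + 2 * n + L * C := by
      rw [hcard, hC]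
      nlinarith
    have key2 : L * m + L * (r + 1) ≤ L * n + 3 * n := by nlinarith
    refine ⟨m, by rw [hcard]; exact Nat.succ_le_of_lt (by positivity), ?_, ?_,
      exists_embedding a L L hL hL hn0⟩
    · have h4 : 3 * n ≤ L * n := Nat.mul_le_mul_right _ (by omega)
      have : L * (m + r + 1) ≤ L * (2 * n) := by nlinarith
      have := Nat.le_of_mul_le_mul_left this hL
      omega
    · have k3 : (L : ℝ) * m ≤ L * n + 3 * n := by
        have : L * m ≤ L * n + 3 * n := by omega
        exact_mod_cast this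
      have hLr : (0 : ℝ) < L := by exact_mod_cast hL
      have h3 : 3 ≤ ε * L := by
        have h1 : 3 / ε ≤ (L : ℝ) := hL0.trans (by rw [hLdef]; push_cast; linarith)
        rw [div_le_iff₀ hε] at h1
        linarith
      have hn' : (0 : ℝ) ≤ n := Nat.cast_nonneg n
      have : (L : ℝ) * m ≤ L * ((1 + ε) * n) := by nlinarith
      exact le_of_mul_le_mul_left this hLr

end Pool.Agent.MP_e4b752_al
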