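import Pool.Agent.MP_e4b752_al.Thr

/-! The degree formula for variants holds from rank `√n + 1` on, and this is sharp. -/

set_option autoImplicit false

namespace Pool.Agent.MP_e4b752_al.Thr

open Function Finset

section upper

variable {n m : ℕ} (f : (Fin n → Fin n) → (Fin m → Fin m))

/-- the point `p` read under the map with background `c` and value `c'` at `d` -/
def qq (p : Fin m) (d c c' : Fin n) : Fin m := f (update (fun _ => c) d c') p

def Det (p : Fin m) (d : Fin n) : Prop := ∃ c c', qq f p d c c' ≠ qq f p d c c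

def One (p : Fin m) (d : Fin n) : Prop := ∀ c c', qq f p d c c' = qq f p d c' c'

open Classical in
noncomputable def supp (q : Fin m) : Finset (Fin n) :=
  univ.filter fun z => ∃ y c, f (update y z c) q ≠ f y q

theorem qq_diag (p : Fin m) (d c : Fin n) : qq f p d c c = f (fun _ => c) p := by
  unfold qq
  congr 1
  exact update_eq_self d fun _ => c

variable {f} {a : Fin n → Fin n}
  (hom : ∀ x y, f (x ∘ a ∘ y) = f x ∘ f y) {σ : Fin n → Fin n}
  (hσ : ∀ i ∈ univ.image a, a (σ i) = i)

theorem mem_of_det {p : Fin m} {d i : Fin n} {g : Fin n → Fin n} {T : Finset (Fin n)}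
    (H : ∀ y y', (∀ z ∈ T, y z = y' z) → f (y ∘ g) p = f (y' ∘ g) p)
    (hg : ∀ e, g e = i ↔ e = d) (hd : Det f p d) : i ∈ T := by
  by_contra hi
  obtain ⟨c, c', h⟩ := hd
  apply h
  have := H (update (fun _ => c) i c') (fun _ => c) fun z hz =>
    update_of_ne (fun he : z = i => hi (he ▸ hz)) _ _
  rw [qq_diag]
  refine Eq.trans ?_ this
  unfold qq
  congr 1
  funext e
  by_cases he : e = d
  · simp [he, (hg d).2 rfl]
  · simp [he, (hg e).not.2 he]

include hom in
theorem act_qq (p : Fin m) (d c c' : Fin n) (y : Fin n → Fin n) :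
    f y (qq f p d c c') = qq f p d (y (a c)) (y (a c')) := by
  have := congrFun (hom y (update (fun _ => c) d c')) p
  refine this.symm.trans ?_
  unfold qq
  congr 1
  funext e
  by_cases he : e = d <;> simp [he]

include hom in
theorem supp_sub (p : Fin m) (d c c' : Fin n) : supp f (qq f p d c c') ⊆ {a c, a c'} := by
  intro z hz
  obtain ⟨-, y, e, h⟩ := mem_filter.mp hz
  by_contra hn
  simp only [mem_insert, mem_singleton, not_or] at hn
  rw [act_qq hom, act_qq hom, update_of_ne (Ne.symm hn.1), update_of_ne (Ne.symm hn.2)] at h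
  exact h rfl

include hom in
theorem supp_two {p : Fin m} {d : Fin n} (h1 : Det f p d) (h2 : ¬ One f p d) {c c' : Fin n}
    (hc : a c ≠ a c') : supp f (qq f p d c c') = {a c, a c'} := by
  refine Subset.antisymm (supp_sub hom p d c c') fun z hz => mem_filter.mpr ⟨mem_univ _, ?_⟩
  rcases mem_insert.mp hz with rfl | hz
  · obtain ⟨u, hu⟩ := not_forall.mp h2
    obtain ⟨v, hv⟩ := not_forall.mp hu
    refine ⟨fun _ => v, u, ?_⟩
    rwa [act_qq hom, act_qq hom, update_self, update_of_ne hc.symm]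
  · obtain rfl := mem_singleton.mp hz
    obtain ⟨u, v, h⟩ := h1
    refine ⟨fun _ => u, v, ?_⟩
    rwa [act_qq hom, act_qq hom, update_self, update_of_ne hc]

include hom in
theorem not_det {d : Fin n} (hd : d ∉ univ.image a) (x : Fin n → Fin n) (p : Fin m) :
    ¬ Det f (f x p) d := by
  rintro ⟨c, c', h⟩
  apply h
  have h1 := congrFun (hom (update (fun _ => c) d c') x) p
  have h2 := congrFun (hom (update (fun _ => c) d c) x) p
  refine h1.symm.trans (Eq.trans ?_ h2)
  congr 1
  funext e
  have h3 : a (x e) ≠ d := fun he => hd (he ▸ mem_image_of_mem a (mem_univ _))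
  simp [h3]

theorem sep (hf : Injective f) (d c : Fin n) {u v : Fin n} (h : u ≠ v) :
    ∃ p, Det f p d ∧ qq f p d c u ≠ qq f p d c v := by
  obtain ⟨p, hp⟩ : ∃ p, qq f p d c u ≠ qq f p d c v := by
    by_contra hn
    push Not at hn
    exact h (by simpa using congrFun (hf (funext hn)) d)
  refine ⟨p, ?_, hp⟩
  by_contra hn
  unfold Det at hn
  push Not at hn
  exact hp ((hn c u).trans (hn c v).symm)

include hom hσ

theorem to_two (p : Fin m) (k : ℕ)
    (hm : ∀ j, 3 ≤ j → j ≤ k → m < (univ.image a).card.choose j) :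
    ∀ T ⊆ univ.image a, T.card ≤ k → ∀ g : Fin n → Fin n, (∀ d, g d ∈ T) →
      ∃ T' ⊆ T, T'.card ≤ 2 ∧
        ∀ y y', (∀ z ∈ T', y z = y' z) → f (y ∘ g) p = f (y' ∘ g) p := by
  have base : ∀ T : Finset (Fin n), T.card ≤ 2 → ∀ g : Fin n → Fin n, (∀ d, g d ∈ T) →
      ∃ T' ⊆ T, T'.card ≤ 2 ∧
        ∀ y y', (∀ z ∈ T', y z = y' z) → f (y ∘ g) p = f (y' ∘ g) p := fun T h g hg =>
    ⟨T, Subset.rfl, h, fun y y' H => by rw [show y ∘ g = y' ∘ g from funext fun d => H _ (hg d)]⟩
  induction k with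
  | zero => exact fun T _ h => base T (by omega)
  | succ k ih =>
    intro T hT h g hg
    by_cases h2 : 3 ≤ T.card
    · obtain ⟨T', h3, h4, g', h5, h6⟩ := reduce hom hσ p (by omega) (hm _ h2 h) hg
      obtain ⟨T'', h7, h8, h9⟩ :=
        ih (fun j j1 j2 => hm j j1 (by omega)) T' (h3.trans hT) (by omega) g' h5
      refine ⟨T'', h7.trans h3, h8, fun y y' H => ?_⟩
      rw [← act hom hσ p y fun d => hT (hg d), ← act hom hσ p y' fun d => hT (hg d), h6,
        act hom hσ p y fun d => hT (h3 (h5 d)), act hom hσ p y' fun d => hT (h3 (h5 d)), h9 y y' H]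
    · exact base T (by omega) g hg

variable (hm : ∀ j, 3 ≤ j → j ≤ 4 → m < (univ.image a).card.choose j)
  (hr : 4 ≤ (univ.image a).card)
include hm hr

theorem three {p : Fin m} {d1 d2 d3 : Fin n} (h12 : d1 ≠ d2) (h13 : d1 ≠ d3) (h23 : d2 ≠ d3)
    (h1 : Det f p d1) (h2 : Det f p d2) (h3 : Det f p d3) : False := by
  obtain ⟨i, j, k, hi, hj, hk, hij, hik, hjk⟩ :=
    two_lt_card_iff.mp (show 2 < (univ.image a).card by omega)
  obtain ⟨l, hl, hl'⟩ := exists_mem_notMem_of_card_lt_card
    (show ({i, j, k} : Finset (Fin n)).card < (univ.image a).card from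
      lt_of_le_of_lt card_le_three (by omega))
  simp only [mem_insert, mem_singleton, not_or] at hl'
  obtain ⟨l1, l2, l3⟩ := hl'
  obtain ⟨T, -, hT, H⟩ := to_two hom hσ p 4 hm {l, i, j, k}
    (insert_subset hl (insert_subset hi (insert_subset hj (singleton_subset_iff.mpr hk))))
    ((card_insert_le _ _).trans (Nat.succ_le_succ card_le_three))
    (fun e => if e = d1 then i else if e = d2 then j else if e = d3 then k else l)
    (fun e => by split_ifs <;> simp)
  have m1 : i ∈ T := mem_of_det H (fun e => by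
    split_ifs with e1 e2 e3 <;> simp [*, hij.symm, hik.symm, h12.symm, h13.symm]) h1
  have m2 : j ∈ T := mem_of_det H (fun e => by
    split_ifs with e1 e2 e3 <;> simp [*, hjk.symm, h23.symm]) h2
  have m3 : k ∈ T := mem_of_det H (fun e => by
    split_ifs with e1 e2 e3 <;> simp [*]) h3
  have := two_lt_card_iff.mpr ⟨i, j, k, m1, m2, m3, hij, hik, hjk⟩
  omega

theorem excl {p : Fin m} {d d' : Fin n} (h0 : One f p d) (h1 : Det f p d) (h2 : Det f p d') :
    d' = d := by
  by_contra hdd
  obtain ⟨i, j, k, hi, hj, hk, hij, hik, hjk⟩ :=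
    two_lt_card_iff.mp (show 2 < (univ.image a).card by omega)
  obtain ⟨T, hT', hT, H⟩ := to_two hom hσ p 4 hm {i, j, k}
    (insert_subset hi (insert_subset hj (singleton_subset_iff.mpr hk)))
    (card_le_three.trans (by omega))
    (fun e => if e = d then i else if e = d' then j else k)
    (fun e => by split_ifs <;> simp)
  have m1 : i ∈ T := mem_of_det H (fun e => by
    split_ifs with e1 e2 <;> simp [*, hij.symm, hik.symm]) h1
  have m2 : j ∈ T := mem_of_det H (fun e => by
    split_ifs with e1 e2 <;> simp [*, hjk.symm, Ne.symm hdd]) h2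
  have m3 : k ∉ T := fun m3 => by
    have := two_lt_card_iff.mpr ⟨i, j, k, m1, m2, m3, hij, hik, hjk⟩
    omega
  obtain ⟨c, c', h⟩ := h2
  have := H (update (fun _ => c) j c') (update (fun _ => c') i c) fun z hz => by
    have h5 := hT' hz
    simp only [mem_insert, mem_singleton] at h5
    rcases h5 with rfl | rfl | rfl
    · simp [hij]
    · simp [hij.symm]
    · exact absurd hz m3
  apply h
  rw [qq_diag, ← qq_diag f p d, ← h0 c' c]
  unfold qq
  convert this using 2 <;> funext e
  · by_cases e1 : e = d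
    · simp [e1, Ne.symm hdd, hij]
    · by_cases e2 : e = d' <;> simp [e1, e2, hdd, hjk.symm]
  · by_cases e1 : e = d
    · simp [e1]
    · by_cases e2 : e = d' <;> simp [e1, e2, hdd, hij.symm, hik.symm]

open Classical in
theorem weights :
    2 * (univ.filter fun q : Fin m => ∃ x p, f x p = q).card +
      ∑ d ∈ (univ.image a)ᶜ, (2 * (univ.filter fun p => Det f p d ∧ One f p d).card +
        (univ.filter fun p => Det f p d ∧ ¬ One f p d).card) ≤ 2 * m := by
  simp only [card_filter, mul_sum, ← sum_add_distrib]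
  rw [sum_comm, ← sum_add_distrib]
  refine (sum_le_card_nsmul _ _ 2 fun p _ => ?_).trans (by simp [mul_comm])
  by_cases h1 : ∃ x q, f x q = p
  · obtain ⟨x, q, rfl⟩ := id h1
    rw [if_pos h1, sum_eq_zero fun d hd => by simp [not_det hom (mem_compl.mp hd) x q]]
    omega
  · rw [if_neg h1, mul_zero, zero_add]
    by_cases h2 : ∃ d ∈ (univ.image a)ᶜ, Det f p d ∧ One f p d
    · obtain ⟨d, hd, h3, h4⟩ := h2
      rw [sum_eq_single_of_mem d hd]
      · simp [h3, h4]
      · intro d' _ hdd
        have : ¬ Det f p d' := fun h => hdd (excl hom hσ hm hr h4 h3 h)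
        simp [this]
    · calc _ = ∑ d ∈ (univ.image a)ᶜ, if Det f p d ∧ ¬ One f p d then 1 else 0 :=
            sum_congr rfl fun d hd => by
              rw [if_neg fun h => h2 ⟨d, hd, h⟩, mul_zero, zero_add]
        _ ≤ 2 := by
            rw [← card_filter]
            by_contra hc
            obtain ⟨d1, d2, d3, k1, k2, k3, h12, h13, h23⟩ := two_lt_card_iff.mp (not_le.mp hc)
            exact three hom hσ hm hr h12 h13 h23 (mem_filter.mp k1).2.1 (mem_filter.mp k2).2.1
              (mem_filter.mp k3).2.1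

end upper

open Classical in
theorem cnt {n m : ℕ} (f : (Fin n → Fin n) → (Fin m → Fin m)) (I : Finset (Fin n))
    (St : Finset (Fin m)) (w : ℕ) (t : Fin n → ℕ)
    (h : ∀ z ∈ I, ∀ z' ∈ I, z ≠ z' → t z' ≤ w * (St.filter fun q => supp f q = {z, z'}).card) :
    (I.card - 1) * ∑ z ∈ I, t z ≤ w * (2 * (St.filter fun q => (supp f q).card = 2).card) := by
  set S2 := St.filter fun q => (supp f q).card = 2 with hS2
  have h1 : ∀ z' ∈ I, (I.card - 1) * t z' ≤ w * (S2.filter fun q => z' ∈ supp f q).card := by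
    intro z' hz'
    have h2 : ∑ z ∈ I.erase z', (St.filter fun q => supp f q = {z, z'}).card ≤
        (S2.filter fun q => z' ∈ supp f q).card := by
      rw [← card_biUnion]
      · refine card_le_card fun q hq => ?_
        obtain ⟨z, hz, hq'⟩ := mem_biUnion.mp hq
        obtain ⟨k1, k2⟩ := mem_filter.mp hq'
        refine mem_filter.mpr ⟨mem_filter.mpr ⟨k1, ?_⟩, by simp [k2]⟩
        rw [k2, card_pair (mem_erase.mp hz).1]
      · intro z hz e he hze
        refine disjoint_left.mpr fun q k1 k2 => ?_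
        have k3 : z ∈ ({e, z'} : Finset (Fin n)) := by
          rw [← (mem_filter.mp k2).2, (mem_filter.mp k1).2]
          simp
        simp only [mem_insert, mem_singleton] at k3
        exact k3.elim hze (mem_erase.mp hz).1
    calc (I.card - 1) * t z' = ∑ _z ∈ I.erase z', t z' := by
          rw [sum_const, card_erase_of_mem hz', smul_eq_mul]
      _ ≤ ∑ z ∈ I.erase z', w * (St.filter fun q => supp f q = {z, z'}).card :=
          sum_le_sum fun z hz => h z (mem_erase.mp hz).2 z' hz' (mem_erase.mp hz).1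
      _ ≤ _ := by
          rw [← mul_sum]
          exact Nat.mul_le_mul_left _ h2
  rw [mul_sum]
  refine (sum_le_sum h1).trans ?_
  rw [← mul_sum]
  refine Nat.mul_le_mul_left _ ?_
  have hS : ∀ q ∈ S2, (supp f q).card = 2 := fun q hq => (mem_filter.mp hq).2
  clear_value S2
  simp only [card_filter]
  rw [sum_comm, mul_comm]
  refine sum_le_card_nsmul _ _ 2 fun q hq => ?_
  rw [← card_filter, ← hS q hq]
  exact card_le_card fun z hz => (mem_filter.mp hz).2


theorem lower2 {n m : ℕ} {a : Fin n → Fin n} {f : (Fin n → Fin n) → (Fin m → Fin m)}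
    (hom : ∀ x y, f (x ∘ a ∘ y) = f x ∘ f y) {σ : Fin n → Fin n}
    (hσ : ∀ i ∈ univ.image a, a (σ i) = i) (hf : Injective f) (hr : 14 ≤ (univ.image a).card)
    (h : n ≤ ((univ.image a).card - 1) ^ 2) : 2 * n - (univ.image a).card ≤ m := by
  classical
  by_contra hm
  set I := univ.image a with hI
  have hrn : I.card ≤ n := by simpa using card_le_univ I
  obtain ⟨s, hs⟩ : ∃ s, I.card = s + 1 := ⟨I.card - 1, by omega⟩
  have hs1 : I.card - 1 = s := by omega
  rw [hs1] at h
  have hm' : ∀ j, 3 ≤ j → j ≤ 4 → m < I.card.choose j := by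
    have c2 : I.card.choose 2 * 2 = I.card * (I.card - 1) := by
      simpa using Nat.choose_succ_right_eq I.card 1
    have c3 : I.card.choose 3 * 3 = I.card.choose 2 * (I.card - 2) :=
      Nat.choose_succ_right_eq I.card 2
    have c4 : I.card.choose 4 * 4 = I.card.choose 3 * (I.card - 3) :=
      Nat.choose_succ_right_eq I.card 3
    have e3 : I.card.choose 2 * 12 ≤ I.card.choose 2 * (I.card - 2) :=
      Nat.mul_le_mul_left _ (by omega)
    have e4 : I.card.choose 3 * 4 ≤ I.card.choose 3 * (I.card - 3) :=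
      Nat.mul_le_mul_left _ (by omega)
    have e2 : n ≤ I.card * (I.card - 1) := by
      rw [hs1, hs]
      nlinarith
    intro j j1 j2
    rcases show j = 3 ∨ j = 4 by omega with rfl | rfl <;> omega
  have W := weights hom hσ hm' (le_trans (by norm_num) hr)
  set St := univ.filter fun q : Fin m => ∃ x p, f x p = q with hSt
  have hq : ∀ p d c c', qq f p d c c' ∈ St := fun p d c c' =>
    mem_filter.mpr ⟨mem_univ _, _, p, rfl⟩
  set S2 := St.filter fun q => (supp f q).card = 2 with hS2
  obtain ⟨i, hi, j, hj, hij⟩ := one_lt_card.mp (show 1 < I.card by omega)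
  have hS : S2.card + I.card ≤ St.card := by
    rw [← card_filter_add_card_filter_not (s := St) fun q => (supp f q).card = 2]
    refine Nat.add_le_add_left ?_ _
    obtain ⟨p, hp⟩ : ∃ p, f (fun _ => i) p ≠ f (fun _ => j) p := by
      by_contra hn
      push Not at hn
      exact hij (congrFun (hf (funext hn)) i)
    refine card_le_card_of_injOn (fun z => qq f p i (σ z) (σ z)) (fun z _ => ?_)
      fun z hz z' hz' he => ?_
    · refine mem_coe.mpr (mem_filter.mpr ⟨hq _ _ _ _, fun h2 => ?_⟩)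
      have := card_le_card (supp_sub hom p i (σ z) (σ z))
      simp only [pair_eq_singleton, card_singleton] at this h2
      omega
    · by_contra hzz
      have e1 := act_qq hom p i (σ z) (σ z) (update (fun _ => j) z i)
      have e2 := act_qq hom p i (σ z') (σ z') (update (fun _ => j) z i)
      rw [show qq f p i (σ z) (σ z) = qq f p i (σ z') (σ z') from he, e2, hσ z hz, hσ z' hz',
        update_self, update_of_ne (Ne.symm hzz), qq_diag, qq_diag] at e1
      exact hp e1.symm
  have hfib : ∑ z ∈ I, fib a z = n := by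
    have := card_eq_sum_card_image a (univ : Finset (Fin n))
    simp only [card_univ, Fintype.card_fin] at this
    exact this.symm
  have hmem : ∀ {p d z z' u}, Det f p d → ¬ One f p d → z ∈ I → z ≠ z' → a u = z' →
      qq f p d (σ z) u ∈ St.filter fun q => supp f q = {z, z'} := by
    intro p d z z' u h1 h2 hz hzz hu
    refine mem_filter.mpr ⟨hq _ _ _ _, ?_⟩
    rw [supp_two hom h1 h2 (by rwa [hσ z hz, hu]), hσ z hz, hu]
  have hStm : St.card ≤ m := by simpa using card_le_univ St
  let P1 : Fin n → Finset (Fin m) := fun d => univ.filter fun p => Det f p d ∧ One f p d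
  let P2 : Fin n → Finset (Fin m) := fun d => univ.filter fun p => Det f p d ∧ ¬ One f p d
  have hW : ∀ t, (∀ d, t ≤ 2 * (P1 d).card + (P2 d).card) →
      2 * St.card + (n - I.card) * t ≤ 2 * m := by
    intro t ht
    have := card_nsmul_le_sum Iᶜ _ _ fun d _ => ht d
    rw [card_compl, Fintype.card_fin, smul_eq_mul] at this
    exact (Nat.add_le_add_left this _).trans W
  have hP : ∀ d p, Det f p d → p ∈ P1 d ∨ p ∈ P2 d := fun d p hp => by
    by_cases h1 : One f p d
    · exact Or.inl (mem_filter.mpr ⟨mem_univ _, hp, h1⟩)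
    · exact Or.inr (mem_filter.mpr ⟨mem_univ _, hp, h1⟩)
  have hP2 : ∀ d p, P1 d = ∅ → Det f p d → p ∈ P2 d := fun d p h0 hp =>
    (hP d p hp).resolve_left (by simp [h0])
  have w2 : ∀ d, 2 ≤ 2 * (P1 d).card + (P2 d).card := by
    intro d
    by_contra hc
    have h0 : P1 d = ∅ := card_eq_zero.mp (by omega)
    obtain ⟨p, hp, -⟩ := sep hf d i hij
    have hp2 := mem_filter.mp (hP2 d p h0 hp)
    have := cnt f I St 1 (fib a) fun z hz z' _ hzz => by
      rw [one_mul]
      refine card_le_card_of_injOn (fun u => qq f p d (σ z) u)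
        (fun u hu => hmem hp hp2.2.2 hz hzz (mem_filter.mp hu).2) fun u _ v _ he => ?_
      by_contra huv
      obtain ⟨p', k1, k2⟩ := sep hf d (σ z) huv
      obtain rfl := card_le_one.mp (show (P2 d).card ≤ 1 by omega) _ (hP2 d p h0 hp) _
        (hP2 d p' h0 k1)
      exact k2 he
    rw [hfib, ← hS2] at this
    have h4 : 4 * n ≤ (I.card - 1) * n := Nat.mul_le_mul_right _ (by omega)
    omega
  have hlt : St.card < n := by
    have := hW 2 w2
    omega
  have w3 : ∀ d, 3 ≤ 2 * (P1 d).card + (P2 d).card := by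
    intro d
    by_contra hc
    have := w2 d
    by_cases h0 : P1 d = ∅
    · obtain ⟨p1, p2, -, hp⟩ := card_eq_two.mp (show (P2 d).card = 2 by
        rw [h0] at this hc
        simp only [card_empty] at this hc
        omega)
      have k1 := (mem_filter.mp (show p1 ∈ P2 d by simp [hp])).2
      have k2 := (mem_filter.mp (show p2 ∈ P2 d by simp [hp])).2
      have := cnt f I St (s + 1) (fun z => s + fib a z) fun z hz z' hz' hzz => by
        set N := St.filter fun q => supp f q = {z, z'}
        have h1 : fib a z' ≤ (N ×ˢ N).card := by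
          refine card_le_card_of_injOn (fun u => (qq f p1 d (σ z) u, qq f p2 d (σ z) u))
            (fun u hu => mem_coe.mpr (mem_product.mpr
              ⟨hmem k1.1 k1.2 hz hzz (mem_filter.mp hu).2,
                hmem k2.1 k2.2 hz hzz (mem_filter.mp hu).2⟩)) fun u _ v _ he => ?_
          by_contra huv
          obtain ⟨p', k3, k4⟩ := sep hf d (σ z) huv
          have k5 := hP2 d p' h0 k3
          simp only [hp, mem_insert, mem_singleton] at k5
          rcases k5 with rfl | rfl
          · exact k4 (Prod.mk.inj he).1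
          · exact k4 (Prod.mk.inj he).2
        rw [card_product] at h1
        have h2 : 1 ≤ N.card := card_pos.mpr ⟨_, hmem k1.1 k1.2 hz hzz (hσ z' hz')⟩
        have h3 : fib a z' ≤ s ^ 2 := le_trans ((card_le_univ _).trans_eq (Fintype.card_fin n)) h
        generalize N.card = k at *
        generalize fib a z' = b at *
        by_cases h4 : k ≤ s
        · nlinarith
        · nlinarith
      rw [sum_add_distrib, hfib, sum_const, smul_eq_mul, ← hS2, hs1, hs] at this
      rw [hs] at hS
      nlinarith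
    · obtain ⟨p, hp⟩ := nonempty_iff_ne_empty.mpr h0
      have h1 : 0 < (P1 d).card := card_pos.mpr ⟨p, hp⟩
      have h2 : P2 d = ∅ := card_eq_zero.mp (by omega)
      have k1 := (mem_filter.mp hp).2
      have : (univ : Finset (Fin n)).card ≤ St.card := by
        refine card_le_card_of_injOn (fun u => qq f p d i u) (fun u _ => hq _ _ _ _)
          fun u _ v _ he => ?_
        by_contra huv
        obtain ⟨p', k3, k4⟩ := sep hf d i huv
        obtain rfl := card_le_one.mp (show (P1 d).card ≤ 1 by omega) _ hp _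
          ((hP d p' k3).resolve_right (by simp [h2]))
        exact k4 he
      rw [card_univ, Fintype.card_fin] at this
      omega
  by_cases h2 : ∃ d, (P2 d).Nonempty
  · obtain ⟨d, p, hp⟩ := h2
    have k1 := (mem_filter.mp hp).2
    have h1 := cnt f I St 1 (fun _ => 1) fun z hz z' hz' hzz => by
      rw [one_mul]
      exact card_pos.mpr ⟨_, hmem k1.1 k1.2 hz hzz (hσ z' hz')⟩
    rw [sum_const, smul_eq_mul, ← hS2, hs1, hs] at h1
    have h3 := hW 3 w3
    have h4 : (s * ((s + 1) * 1)) = s ^ 2 + s := by ring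
    omega
  · have h3 := hW 4 fun d => by
      have h4 : (P2 d).card = 0 := card_eq_zero.mpr (not_nonempty_iff_eq_empty.mp fun h => h2 ⟨d, h⟩)
      have := w3 d
      omega
    omega

theorem isLeast2 {n : ℕ} (a : Fin n → Fin n) (hr : 14 ≤ (univ.image a).card)
    (h : n ≤ ((univ.image a).card - 1) ^ 2) :
    IsLeast {m | 1 ≤ m ∧ Emb a m} (2 * n - (univ.image a).card) := by
  have hrn : (univ.image a).card ≤ n := by simpa using card_le_univ (univ.image a)
  have : Nonempty (Fin n) := ⟨⟨0, by omega⟩⟩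
  refine ⟨⟨by omega, emb_upper a⟩, fun m ⟨_, f, hf, hom⟩ =>
    lower2 hom (σ := invFun a) (fun i hi => invFun_eq ?_) hf hr h⟩
  simpa using hi

section grid

variable {n s : ℕ}

/-- the first `s` points are kept, the others are read through `φ` -/
def lft (s : ℕ) {Z : Type} (φ : Fin n → Z) (i : Fin n) : Fin s ⊕ Z :=
  if h : i.1 < s then Sum.inl ⟨i.1, h⟩ else Sum.inr (φ i)

def bk (hs : s < n) {Z : Type} : Fin s ⊕ Z → Fin n :=
  Sum.elim (Fin.castLE hs.le) fun _ => ⟨s, hs⟩

/-- the map with `s` singleton kernel classes and one large class -/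
def big (hs : s < n) (i : Fin n) : Fin n := if i.1 < s then i else ⟨s, hs⟩

theorem bk_lft (hs : s < n) {Z : Type} (φ : Fin n → Z) (i : Fin n) :
    bk hs (lft s φ i) = big hs i := by
  unfold lft big
  by_cases h : i.1 < s <;> simp [h, bk]

theorem lft_eq {Z : Type} {φ : Fin n → Z} {u v : Fin n} (h : lft s φ u = lft s φ v) :
    (u.1 < s ∧ u = v) ∨ (¬ u.1 < s ∧ ¬ v.1 < s ∧ φ u = φ v) := by
  unfold lft at h
  by_cases hu : u.1 < s <;> by_cases hv : v.1 < s <;> simp [hu, hv] at h ⊢
  · exact Fin.ext h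
  · exact h

theorem rank_big (hs : s < n) : (univ.image (big hs)).card = s + 1 := by
  have : univ.image (big hs) = univ.image (Fin.castLE (show s + 1 ≤ n from hs)) := by
    ext c
    simp only [mem_image, mem_univ, true_and]
    constructor
    · rintro ⟨i, rfl⟩
      by_cases h : i.1 < s
      · exact ⟨⟨i.1, by omega⟩, by simp [big, h]⟩
      · exact ⟨⟨s, by omega⟩, by simp [big, h]⟩
    · rintro ⟨i, rfl⟩
      refine ⟨Fin.castLE hs i, ?_⟩
      by_cases h : i.1 < s
      · simp [big, h]
      · exact Fin.ext (by simp [big, h]; omega)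
  rw [this, card_image_of_injective _ (Fin.castLE_injective _)]
  simp

theorem emb_grid (hs : s < n) {A B : Type} [Fintype A] [Fintype B] (e : Fin n → A × B × B)
    (he : Injective e) :
    Emb (big hs) (2 * (s + Fintype.card A * Fintype.card B) +
      (s + Fintype.card B ^ 2 + 1).choose 2 + 3 * (n / 2 + 1)) := by
  classical
  have hn : 0 < n := by omega
  let r1 := lft s fun i => ((e i).1, (e i).2.1)
  let r2 := lft s fun i => ((e i).1, (e i).2.2)
  let k := lft s fun i => (e i).2
  have key : ∀ u u' v v', r1 u = r1 u' → r2 v = r2 v' → s(k u, k v) = s(k u', k v') →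
      u = u' ∧ v = v' := by
    intro u u' v v' h1 h2 h3
    rcases Sym2.eq_iff.mp h3 with ⟨h4, h5⟩ | ⟨h4, h5⟩
    · constructor
      · rcases lft_eq h1 with h | h
        · exact h.2
        · rcases lft_eq h4 with g | g
          · exact g.2
          · exact he (Prod.ext (Prod.mk.inj h.2.2).1 g.2.2)
      · rcases lft_eq h2 with h | h
        · exact h.2
        · rcases lft_eq h5 with g | g
          · exact g.2
          · exact he (Prod.ext (Prod.mk.inj h.2.2).1 g.2.2)
    · rcases lft_eq h1 with ⟨h, rfl⟩ | ⟨h, h', h6⟩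
      · rcases lft_eq h4 with g | g
        · rcases lft_eq h5.symm with g' | g'
          · exact ⟨rfl, g'.2.symm.trans g.2⟩
          · exact absurd h g'.1
        · exact absurd h g.1
      · obtain ⟨-, g1, g2⟩ := (lft_eq h4).resolve_left fun g => h g.1
        obtain ⟨-, -, g3⟩ := (lft_eq h5.symm).resolve_left fun g => h' g.1
        obtain ⟨-, -, g4⟩ := (lft_eq h2.symm).resolve_left fun g => g1 g.1
        obtain ⟨a1, a2⟩ := Prod.mk.inj h6
        obtain ⟨a3, a4⟩ := Prod.mk.inj g4
        exact ⟨he (Prod.ext a1 (Prod.ext a2 (by rw [g2, a4, g3]))),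
          he (Prod.ext a3.symm (Prod.ext (by rw [← g3, ← a2, g2]) a4.symm))⟩
  let c0 := fun j => coord hn 2 j 0
  let c1 := fun j => coord hn 2 j 1
  have h := emb_of_type (big hs)
    (X := ((Fin s ⊕ A × B) ⊕ (Fin s ⊕ A × B) ⊕ Sym2 (Fin s ⊕ B × B)) ⊕
      Fin (n / 2 + 1) ⊕ Fin (n / 2 + 1) ⊕ Fin (n / 2 + 1))
    (fun x => Sum.elim
      (fun p => Sum.inl (Sum.map (r1 ∘ x ∘ bk hs) (Sum.map (r2 ∘ x ∘ bk hs)
        (Sym2.map (k ∘ x ∘ bk hs))) p))
      (fun p => Sum.inl (Sum.map (r1 ∘ x ∘ c0) (Sum.map (r2 ∘ x ∘ c1)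
        fun j => s(k (x (c0 j)), k (x (c1 j)))) p)))
    (fun x y hxy => funext fun d => by
      have hj : d.1 / 2 < n / 2 + 1 := Nat.lt_succ_of_le (Nat.div_le_div_right d.2.le)
      have h1 := congrFun hxy (Sum.inr (Sum.inl ⟨_, hj⟩))
      have h2 := congrFun hxy (Sum.inr (Sum.inr (Sum.inl ⟨_, hj⟩)))
      have h3 := congrFun hxy (Sum.inr (Sum.inr (Sum.inr ⟨_, hj⟩)))
      simp only [Sum.elim_inr, Sum.map_inl, Sum.map_inr, Sum.inl.injEq, Sum.inr.injEq] at h1 h2 h3
      obtain ⟨g1, g2⟩ := key _ _ _ _ h1 h2 h3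
      by_cases hd : d.1 % 2 = 0
      · have : c0 ⟨_, hj⟩ = d := Fin.ext (by
          show (2 * (d.1 / 2) + 0) % n = d.1
          rw [show 2 * (d.1 / 2) + 0 = d.1 by omega, Nat.mod_eq_of_lt d.2])
        rwa [comp_apply, comp_apply, this] at g1
      · have : c1 ⟨_, hj⟩ = d := Fin.ext (by
          show (2 * (d.1 / 2) + 1) % n = d.1
          rw [show 2 * (d.1 / 2) + 1 = d.1 by omega, Nat.mod_eq_of_lt d.2])
        rwa [comp_apply, comp_apply, this] at g2)
    (fun x y => funext fun p => by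
      rcases p with (p | p | p) | p | p | p
      · simp [r1, bk_lft]
      · simp [r2, bk_lft]
      · induction p using Sym2.ind
        simp [k, bk_lft]
      · simp [r1, bk_lft]
      · simp [r2, bk_lft]
      · simp [k, bk_lft])
  simp only [Fintype.card_sum, Fintype.card_prod, Fintype.card_fin, Sym2.card] at h
  convert h using 1
  ring_nf

theorem fails (hs : s < n) (L : ℕ) (hL : 0 < L)
    (h : (s + L ^ 2 + 1) ^ 2 + 4 * (n / L) + 6 * s + 4 * L + 8 < n) :
    ∃ m, 1 ≤ m ∧ m < 2 * n - (s + 1) ∧ Emb (big hs) m := by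
  obtain ⟨e⟩ : Nonempty (Fin n ↪ Fin (n / L ^ 2 + 1) × Fin L × Fin L) := by
    refine Function.Embedding.nonempty_of_card_le ?_
    simp only [Fintype.card_prod, Fintype.card_fin]
    have := Nat.lt_div_mul_add (a := n) (show 0 < L ^ 2 by positivity)
    nlinarith
  have h1 := emb_grid hs e e.injective
  simp only [Fintype.card_fin] at h1
  refine ⟨_, by omega, ?_, h1⟩
  have c2 : (s + L ^ 2 + 1).choose 2 * 2 = (s + L ^ 2 + 1) * (s + L ^ 2) := by
    have := Nat.choose_succ_right_eq (s + L ^ 2 + 1) 1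
    rwa [Nat.choose_one_right, Nat.add_sub_cancel] at this
  have c3 : n / L ^ 2 * L ≤ n / L := by
    rw [pow_two, ← Nat.div_div_eq_div_mul]
    exact Nat.div_mul_le_self _ _
  have c4 : (s + L ^ 2 + 1) * (s + L ^ 2) ≤ (s + L ^ 2 + 1) ^ 2 := by nlinarith
  rw [add_mul, one_mul]
  omega

end grid

/-- the formula holds for all sandwich elements of rank at least `r` -/
def Good (n r : ℕ) : Prop := ∀ a : Fin n → Fin n, r ≤ (univ.image a).card →
  IsLeast {m | 1 ≤ m ∧ Emb a m} (2 * n - (univ.image a).card)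

theorem not_good {n r L : ℕ} (hL : 0 < L) (h2 : n < (L + 1) ^ 6)
    (h : (r + 60 * L ^ 2) ^ 2 ≤ n) : ¬ Good n r := by
  intro hg
  obtain ⟨t, ht, t1, t2⟩ : ∃ t, r + 60 * L ^ 2 ≤ t ∧ t ^ 2 ≤ n ∧ n < (t + 1) ^ 2 :=
    ⟨n.sqrt, Nat.le_sqrt'.mpr h, Nat.sqrt_le' n, Nat.lt_succ_sqrt' n⟩
  have hL2 : L ≤ L ^ 2 := by nlinarith
  have h3 : n / L ≤ 8 * L ^ 2 * (t + 1) := by
    refine Nat.div_le_of_le_mul ?_
    have h4 : (L + 1) ^ 3 ≤ (2 * L) ^ 3 := Nat.pow_le_pow_left (by omega) 3
    have h5 : n ^ 2 ≤ ((L + 1) ^ 3 * (t + 1)) ^ 2 := by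
      rw [mul_pow, ← pow_mul, pow_two n]
      exact Nat.mul_le_mul h2.le t2.le
    have h6 := (Nat.pow_le_pow_iff_left two_ne_zero).mp h5
    calc n ≤ (2 * L) ^ 3 * (t + 1) := h6.trans (Nat.mul_le_mul_right _ h4)
      _ = L * (8 * L ^ 2 * (t + 1)) := by ring
  obtain ⟨u, rfl⟩ := Nat.exists_eq_add_of_le ht
  generalize hM : L ^ 2 = M at *
  have hs : r < n := by nlinarith
  obtain ⟨m, m1, m2, m3⟩ := fails hs L hL (by
    rw [hM]
    nlinarith)
  have := (hg (big hs) (by rw [rank_big]; omega)).2 ⟨m1, m3⟩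
  rw [rank_big] at this
  omega

theorem good {n r : ℕ} (h : max 14 (n.sqrt + 2) ≤ r) : Good n r := fun a ha =>
  isLeast2 a (by omega) ((Nat.lt_succ_sqrt' n).le.trans (Nat.pow_le_pow_left (by omega) 2))

theorem sharp (n : ℕ) (hn : 1 ≤ n) : ∃ ρ : ℕ, IsLeast {r | Good n r} ρ ∧
    √n - 60 * (n : ℝ) ^ (1 / 3 : ℝ) ≤ ρ ∧ (ρ : ℝ) ≤ max 14 (√n + 2) := by
  classical
  have hex : ∃ r, Good n r := ⟨_, good le_rfl⟩
  refine ⟨Nat.find hex, ⟨Nat.find_spec hex, fun r hr => Nat.find_min' hex hr⟩, ?_⟩
  have h2 : (Nat.find hex : ℝ) ≤ max 14 ((n.sqrt : ℝ) + 2) := by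
    exact_mod_cast Nat.find_min' hex (good le_rfl)
  have h3 : (n.sqrt : ℝ) ≤ √n := Real.nat_sqrt_le_real_sqrt
  have l1 : (Nat.nthRoot 6 n) ^ 6 ≤ n := Nat.pow_nthRoot_le (Or.inl (by norm_num))
  have l2 : n < (Nat.nthRoot 6 n + 1) ^ 6 := Nat.lt_pow_nthRoot_add_one (by norm_num) n
  generalize Nat.nthRoot 6 n = L at l1 l2
  have hL : 0 < L := Nat.pos_of_ne_zero fun h => by
    rw [h] at l2
    omega
  have h4 : n < (Nat.find hex + 60 * L ^ 2) ^ 2 :=
    not_le.mp fun h => not_good hL l2 h (Nat.find_spec hex)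
  have h5 : √n ≤ (Nat.find hex : ℝ) + 60 * (L : ℝ) ^ 2 :=
    Real.sqrt_le_iff.mpr ⟨by positivity, by exact_mod_cast h4.le⟩
  have h6 : (L : ℝ) ^ 2 ≤ (n : ℝ) ^ (1 / 3 : ℝ) := by
    rw [one_div, Real.le_rpow_inv_iff_of_pos (by positivity) (by positivity) (by norm_num),
      show (3 : ℝ) = (3 : ℕ) by norm_num, Real.rpow_natCast, ← pow_mul]
    exact_mod_cast l1
  exact ⟨by linarith, h2.trans (max_le_max_left _ (by linarith))⟩

end Pool.Agent.MP_e4b752_al.Thr
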