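import Pool.Agent.MP_e4b752_al.Embed

/-! The threshold rank for the degree formula of variants of full transformation semigroups. -/

set_option autoImplicit false

namespace Pool.Agent.MP_e4b752_al.Thr

open Function Finset

/-- The variant with sandwich element `a` embeds in the maps of `m` points. -/
def Emb {n : ℕ} (a : Fin n → Fin n) (m : ℕ) : Prop :=
  ∃ f : (Fin n → Fin n) → (Fin m → Fin m), Injective f ∧ ∀ x y, f (x ∘ a ∘ y) = f x ∘ f y

theorem emb_of_type {n : ℕ} (a : Fin n → Fin n) {X : Type} [Fintype X]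
    (f : (Fin n → Fin n) → X → X) (hf : Injective f) (h : ∀ x y, f (x ∘ a ∘ y) = f x ∘ f y) :
    Emb a (Fintype.card X) := by
  let e := Fintype.equivFin X
  refine ⟨fun x => e ∘ f x ∘ e.symm, fun x y hxy => hf (funext fun p => ?_), fun x y => ?_⟩
  · simpa using congrFun hxy (e p)
  · funext p
    simp [h]

theorem emb_upper {n : ℕ} (a : Fin n → Fin n) : Emb a (2 * n - (univ.image a).card) := by
  have h := emb_of_type a (X := Fin n ⊕ {d : Fin n // d ∉ univ.image a})
    (fun x => Sum.elim (fun c => Sum.inl (x (a c))) fun d => Sum.inl (x d.1))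
    (fun x y hxy => funext fun d => by
      by_cases hd : d ∈ univ.image a
      · obtain ⟨c, -, rfl⟩ := mem_image.mp hd
        simpa using congrFun hxy (Sum.inl c)
      · simpa using congrFun hxy (Sum.inr ⟨d, hd⟩))
    (fun x y => funext fun p => by rcases p with c | d <;> rfl)
  have h1 : (univ.image a).card ≤ n := by simpa using card_le_univ (univ.image a)
  rw [Fintype.card_sum, Fintype.card_subtype_compl, Fintype.card_fin, Fintype.card_coe] at h
  convert h using 1
  omega

theorem exists_maps {α : Type} [DecidableEq α] {T S : Finset α} (h : T.card = S.card) {t : α}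
    (ht : t ∈ T) : ∃ h u : α → α, (∀ x ∈ T, h x ∈ S ∧ u (h x) = x) ∧
      (∀ y ∈ S, ∃ x ∈ T, h x = y) ∧ ∀ y, u y ∈ T := by
  let e := Finset.equivOfCardEq h
  refine ⟨fun x => if hx : x ∈ T then (e ⟨x, hx⟩ : α) else t,
    fun y => if hy : y ∈ S then (e.symm ⟨y, hy⟩ : α) else t, fun x hx => ?_, fun y hy => ?_,
    fun y => ?_⟩
  · simp [hx]
  · exact ⟨e.symm ⟨y, hy⟩, (e.symm ⟨y, hy⟩).2, by simp⟩
  · by_cases hy : y ∈ S
    · simp [hy]
    · simp [hy, ht]

section lower

variable {n m : ℕ} {a : Fin n → Fin n} {f : (Fin n → Fin n) → (Fin m → Fin m)}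
  (hom : ∀ x y, f (x ∘ a ∘ y) = f x ∘ f y) {σ : Fin n → Fin n}
  (hσ : ∀ i ∈ univ.image a, a (σ i) = i)
include hom hσ

theorem act (p : Fin m) (y : Fin n → Fin n) {g : Fin n → Fin n} (hg : ∀ d, g d ∈ univ.image a) :
    f y (f (σ ∘ g) p) = f (y ∘ g) p := by
  have : y ∘ a ∘ (σ ∘ g) = y ∘ g := funext fun d => congrArg y (hσ _ (hg d))
  rw [← this, hom]
  rfl

theorem reduce (p : Fin m) {T : Finset (Fin n)} (h2 : 2 ≤ T.card)
    (hm : m < (univ.image a).card.choose T.card) {g : Fin n → Fin n} (hg : ∀ d, g d ∈ T) :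
    ∃ T' ⊆ T, T'.card < T.card ∧ ∃ g' : Fin n → Fin n, (∀ d, g' d ∈ T') ∧
      f (σ ∘ g) p = f (σ ∘ g') p := by
  obtain ⟨t, ht⟩ := card_pos.mp (show 0 < T.card by omega)
  have key : ∀ S : Finset (Fin n), ∃ h u : Fin n → Fin n, T.card = S.card →
      (∀ x ∈ T, h x ∈ S ∧ u (h x) = x) ∧ (∀ y ∈ S, ∃ x ∈ T, h x = y) ∧ ∀ y, u y ∈ T := by
    intro S
    by_cases hS : T.card = S.card
    · obtain ⟨h, u, H⟩ := exists_maps hS ht
      exact ⟨h, u, fun _ => H⟩
    · exact ⟨id, id, fun h => absurd h hS⟩
  choose h u H using key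
  obtain ⟨S, hS, S', hS', hne, heq⟩ := exists_ne_map_eq_of_card_lt_of_maps_to
    (s := (univ.image a).powersetCard T.card) (t := (univ : Finset (Fin m)))
    (by simpa using hm) (f := fun S => f (σ ∘ (h S ∘ g)) p) (fun _ _ => mem_coe.mpr (mem_univ _))
  obtain ⟨s1, s2⟩ := mem_powersetCard.mp hS
  obtain ⟨s3, s4⟩ := mem_powersetCard.mp hS'
  obtain ⟨k1, -, k3⟩ := H S s2.symm
  obtain ⟨k4, k5, -⟩ := H S' s4.symm
  obtain ⟨y, hy, hyS⟩ : ∃ y ∈ S', y ∉ S := by
    by_contra hc
    push Not at hc
    exact hne (eq_of_subset_of_card_le hc (by omega)).symm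
  obtain ⟨y', hy', hyy⟩ := exists_mem_ne (show 1 < S'.card by omega) y
  let v := update (u S) y (u S y')
  have hv : ∀ z, v z ∈ T := fun z => by
    by_cases hz : z = y
    · simp [v, hz, k3]
    · simp [v, hz, k3]
  refine ⟨T.image (v ∘ h S'), fun z hz => ?_, ?_, v ∘ h S' ∘ g,
    fun d => mem_image_of_mem _ (hg d), ?_⟩
  · obtain ⟨x, -, rfl⟩ := mem_image.mp hz
    exact hv _
  · refine lt_of_le_of_ne card_image_le fun hc => ?_
    obtain ⟨x, hx, rfl⟩ := k5 y hy
    obtain ⟨x', hx', rfl⟩ := k5 y' hy'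
    refine hyy (congrArg _ (card_image_iff.mp hc hx' hx ?_))
    simp [v, hyy]
  · have e1 := act hom hσ p (σ ∘ v) (g := h S ∘ g) fun d => s1 (k1 _ (hg d)).1
    have e2 := act hom hσ p (σ ∘ v) (g := h S' ∘ g) fun d => s3 (k4 _ (hg d)).1
    have e3 : (σ ∘ v) ∘ h S ∘ g = σ ∘ g := funext fun d => by
      have : h S (g d) ≠ y := fun hc => hyS (hc ▸ (k1 _ (hg d)).1)
      simp [v, this, (k1 _ (hg d)).2]
    rw [← e3, ← e1, show f (σ ∘ h S ∘ g) p = f (σ ∘ h S' ∘ g) p from heq, e2]
    rfl

theorem to_const (p : Fin m) (d0 : Fin n) (k : ℕ)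
    (hm : ∀ j, 2 ≤ j → j ≤ k → m < (univ.image a).card.choose j) :
    ∀ T ⊆ univ.image a, T.card ≤ k → ∀ g : Fin n → Fin n, (∀ d, g d ∈ T) →
      ∃ z ∈ T, ∀ y, f (y ∘ g) p = f (fun _ => y z) p := by
  induction k with
  | zero => exact fun T _ h g hg => absurd (card_pos.mpr ⟨_, hg d0⟩) (by omega)
  | succ k ih =>
    intro T hT h g hg
    by_cases h2 : 2 ≤ T.card
    · obtain ⟨T', h3, h4, g', h5, h6⟩ := reduce hom hσ p h2 (hm _ h2 h) hg
      obtain ⟨z, hz, h7⟩ := ih (fun j j1 j2 => hm j j1 (by omega)) T' (h3.trans hT) (by omega) g' h5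
      refine ⟨z, h3 hz, fun y => ?_⟩
      rw [← act hom hσ p y fun d => hT (hg d), h6, act hom hσ p y fun d => hT (h3 (h5 d)), h7]
    · refine ⟨g d0, hg d0, fun y => ?_⟩
      congr 1
      funext d
      exact congrArg y (card_le_one.mp (by omega) _ (hg d) _ (hg d0))

theorem lower (hf : Injective f) (hr : 1 ≤ (univ.image a).card)
    (h : 4 * n ≤ (univ.image a).card * ((univ.image a).card + 1)) :
    2 * n - (univ.image a).card ≤ m := by
  classical
  by_contra hm
  set I := univ.image a with hI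
  have hrn : I.card ≤ n := by simpa using card_le_univ I
  have hr3 : 3 ≤ I.card := by nlinarith
  have c2 : I.card.choose 2 * 2 = I.card * (I.card - 1) := by
    simpa using Nat.choose_succ_right_eq I.card 1
  have hm2 : m < I.card.choose 2 := by
    obtain ⟨r, hr'⟩ : ∃ r, I.card = r + 1 := ⟨I.card - 1, by omega⟩
    rw [hr'] at c2 h hm ⊢
    rw [Nat.add_sub_cancel] at c2
    have : 2 * n ≤ (r + 1).choose 2 + (r + 1) := by nlinarith
    omega
  obtain ⟨i, j, k, hi, hj, hk, hij, hik, hjk⟩ := two_lt_card_iff.mp (show 2 < I.card by omega)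
  let β : Fin m → Fin n → Fin m := fun p c => f (fun _ => c) p
  let P : Fin n → Finset (Fin m) := fun d => univ.filter fun p =>
    (∃ c c', β p c ≠ β p c') ∧ ∀ c c', f (update (fun _ => c) d c') p = β p c'
  have det : ∀ d c c', c ≠ c' → ∃ p ∈ P d, β p c ≠ β p c' := by
    intro d c c' hc
    obtain ⟨p, hp⟩ : ∃ p, f (update (fun _ => c) d c') p ≠ β p c := by
      by_contra hn
      push Not at hn
      exact hc (by simpa using (congrFun (hf (funext hn)) d).symm)
    obtain ⟨z, hz, H⟩ := to_const hom hσ p d 2 (fun j j1 j2 => by rwa [show j = 2 by omega])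
      {i, j} (insert_subset hi (singleton_subset_iff.mpr hj)) card_le_two (update (fun _ => j) d i)
      (fun e => by by_cases he : e = d <;> simp [he])
    have H' : ∀ c c', f (update (fun _ => c) d c') p = β p (update (fun _ => c) i c' z) := by
      intro c c'
      rw [← show update (fun _ => c) i c' ∘ update (fun _ => j) d i = update (fun _ => c) d c' from
        funext fun e => by by_cases he : e = d <;> simp [he, hij.symm]]
      exact H _
    have hz' : z = i := by
      by_contra hzi
      exact hp (by rw [H', update_of_ne hzi])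
    have hl : ∀ c c', f (update (fun _ => c) d c') p = β p c' := fun c c' => by
      rw [H', hz', update_self]
    have hb : β p c ≠ β p c' := fun he => hp (by rw [hl, he])
    exact ⟨p, mem_filter.mpr ⟨mem_univ _, ⟨c, c', hb⟩, hl⟩, hb⟩
  have disj : ∀ d ∈ Iᶜ, ∀ d' ∈ Iᶜ, d ≠ d' → Disjoint (P d) (P d') := by
    intro d hd d' hd' hdd
    have h5 : 5 ≤ I.card := by
      have h1 : 1 < Iᶜ.card := one_lt_card.mpr ⟨d, hd, d', hd', hdd⟩
      rw [card_compl, Fintype.card_fin] at h1
      by_contra h5
      have : I.card = 3 ∨ I.card = 4 := by omega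
      rcases this with h6 | h6 <;> rw [h6] at h h1 <;> omega
    have c3 : I.card.choose 3 * 3 = I.card.choose 2 * (I.card - 2) :=
      Nat.choose_succ_right_eq I.card 2
    have hm3 : m < I.card.choose 3 := by
      have : I.card.choose 2 * 3 ≤ I.card.choose 2 * (I.card - 2) :=
        Nat.mul_le_mul_left _ (by omega)
      omega
    refine disjoint_left.mpr fun p hp hp' => ?_
    obtain ⟨-, ⟨c, c', hb⟩, hl⟩ := mem_filter.mp hp
    obtain ⟨-, -, hl'⟩ := mem_filter.mp hp'
    obtain ⟨z, hz, H⟩ := to_const hom hσ p d 3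
      (fun j j1 j2 => by rcases show j = 2 ∨ j = 3 by omega with rfl | rfl <;> assumption)
      {i, j, k} (insert_subset hi (insert_subset hj (singleton_subset_iff.mpr hk))) card_le_three
      (update (update (fun _ => k) d i) d' j)
      (fun e => by
        by_cases he : e = d'
        · simp [he]
        · by_cases he' : e = d <;> simp [he, he', hdd])
    have e1 : update (fun _ => c) i c' ∘ update (update (fun _ => k) d i) d' j =
        update (fun _ => c) d c' := funext fun e => by
      by_cases he : e = d'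
      · simp [he, hij.symm, hdd.symm]
      · by_cases he' : e = d <;> simp [he, he', hdd, hik.symm]
    have e2 : update (fun _ => c) j c' ∘ update (update (fun _ => k) d i) d' j =
        update (fun _ => c) d' c' := funext fun e => by
      by_cases he : e = d'
      · simp [he]
      · by_cases he' : e = d <;> simp [he, he', hdd, hij, hjk.symm]
    have z1 : z = i := by
      by_contra hz1
      have := H (update (fun _ => c) i c')
      rw [e1, hl, update_of_ne hz1] at this
      exact hb this.symm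
    have := H (update (fun _ => c) j c')
    rw [e2, hl', z1, update_of_ne hij] at this
    exact hb this.symm
  have nim : ∀ d ∈ Iᶜ, ∀ p c, β p c ∉ P d := by
    intro d hd p c0 hp
    obtain ⟨-, ⟨c, c', hb⟩, hl⟩ := mem_filter.mp hp
    have h1 := congrFun (hom (update (fun _ => c) d c') fun _ => c0) p
    have h2 := congrFun (hom (fun _ => c) fun _ => c0) p
    have h3 : a c0 ≠ d := fun he => mem_compl.mp hd (he ▸ mem_image_of_mem a (mem_univ _))
    have h4 : update (fun _ => c) d c' ∘ a ∘ (fun _ : Fin n => c0) =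
        (fun _ => c) ∘ a ∘ fun _ => c0 := funext fun _ => by simp [h3]
    exact hb ((h2.symm.trans (h4 ▸ h1)).trans (hl c c'))
  have count : ∀ (p : Fin m) (t : ℕ), (∀ d ∈ Iᶜ, t ≤ (P d).card) →
      (univ.image (β p)).card + (n - I.card) * t ≤ m := by
    intro p t ht
    have h1 := card_le_univ (univ.image (β p) ∪ Iᶜ.biUnion P)
    rw [card_union_of_disjoint, card_biUnion disj, Fintype.card_fin] at h1
    · have h2 := card_nsmul_le_sum _ _ _ ht
      rw [card_compl, Fintype.card_fin, smul_eq_mul] at h2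
      omega
    · refine disjoint_left.mpr fun q hq hq' => ?_
      obtain ⟨c, -, rfl⟩ := mem_image.mp hq
      obtain ⟨d, hd, hd'⟩ := mem_biUnion.mp hq'
      exact nim d hd p c hd'
  by_cases hinj : ∃ p, Injective (β p)
  · obtain ⟨p, hp⟩ := hinj
    have := count p 1 fun d _ => card_pos.mpr ((det d i j hij).imp fun _ h => h.1)
    rw [card_image_of_injective _ hp, card_univ, Fintype.card_fin] at this
    omega
  · obtain ⟨p, -, hp⟩ := det i i j hij
    have h1 := count p 2 fun d _ => by
      obtain ⟨p1, h1, -⟩ := det d i j hij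
      obtain ⟨c, c', h2, h3⟩ := not_injective_iff.mp fun h => hinj ⟨p1, h⟩
      obtain ⟨p2, h4, h5⟩ := det d c c' h3
      exact one_lt_card.mpr ⟨p1, h1, p2, h4, fun he => h5 (he ▸ h2)⟩
    have h2 : I.card ≤ (univ.image (β p)).card := by
      refine card_le_card_of_injOn (fun z => β p (σ z))
        (fun z _ => mem_coe.mpr (mem_image_of_mem _ (mem_univ _))) fun z hz z' hz' he => ?_
      by_contra hzz
      have e1 := act hom hσ p (update (fun _ => j) z i) (g := fun _ => z) fun _ => hz
      have e2 := act hom hσ p (update (fun _ => j) z i) (g := fun _ => z') fun _ => hz'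
      have e3 : f (σ ∘ fun _ => z) p = f (σ ∘ fun _ => z') p := he
      rw [e3, e2] at e1
      apply hp
      have e4 : update (fun _ => j) z i ∘ (fun _ : Fin n => z) = fun _ => i := by
        funext _
        simp
      have e5 : update (fun _ => j) z i ∘ (fun _ : Fin n => z') = fun _ => j := by
        funext _
        simp [Ne.symm hzz]
      rw [e4, e5] at e1
      exact e1.symm
    omega

end lower

theorem isLeast {n : ℕ} (a : Fin n → Fin n) (hr : 1 ≤ (univ.image a).card)
    (h : 4 * n ≤ (univ.image a).card * ((univ.image a).card + 1)) :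
    IsLeast {m | 1 ≤ m ∧ Emb a m} (2 * n - (univ.image a).card) := by
  have hrn : (univ.image a).card ≤ n := by simpa using card_le_univ (univ.image a)
  have : Nonempty (Fin n) := ⟨⟨0, by omega⟩⟩
  refine ⟨⟨by omega, emb_upper a⟩, fun m ⟨_, f, hf, hom⟩ =>
    lower hom (σ := invFun a) (fun i hi => invFun_eq ?_) hf hr h⟩
  simpa using hi

theorem small {n : ℕ} (a : Fin n → Fin n) (hr : 2 ≤ (univ.image a).card)
    (h : 64 * (univ.image a).card ^ 2 ≤ n) :
    ∃ m, 1 ≤ m ∧ m < 2 * n - (univ.image a).card ∧ Emb a m := by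
  have h1 := card_Pts a 3 2
  have h2 := card_rows a 3
  have h3 : 2 * (univ.image a).card ≤ (univ.image a).card ^ 2 := by nlinarith
  rw [mul_pow] at h1
  exact ⟨_, by omega, by omega, exists_embedding a 3 2 (by omega) (by omega) (by omega)⟩

end Pool.Agent.MP_e4b752_al.Thr
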